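import Mathlib

set_option autoImplicit false

/-! Cofinal families of countable subsets. -/

namespace Pool.Agent.H865.CM

open Set Cardinal

universe u

theorem T6_step (m : ℕ) (ih : ∀ (Λ : Type u), #Λ = ℵ_ m → ∃ c : Λ → Set Λ,
    (∀ l, (c l).Countable) ∧ ∀ S : Set Λ, S.Countable → ∃ l, S ⊆ c l) (Λ : Type u)
    (hΛ : #Λ = Order.succ (ℵ_ m)) : ∃ c : Λ → Set Λ, (∀ l, (c l).Countable) ∧
    ∀ S : Set Λ, S.Countable → ∃ l, S ⊆ c l := by
  classical
  obtain ⟨r, wo, hr⟩ := Cardinal.exists_ord_eq Λ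
  have hseg : ∀ b, #{s // r s b} ≤ ℵ_ m := by
    intro b
    have h1 : #{s // r s b} < #Λ := by
      have h2 := Cardinal.card_typein_lt b hr
      rw [Ordinal.card_typein] at h2
      exact h2
    rw [hΛ] at h1
    exact Order.lt_succ_iff.1 h1
  have hcov : ∀ S : Set Λ, S.Countable → ∃ b, ∀ s ∈ S, r s b := by
    intro S hS
    by_contra hcon
    push Not at hcon
    have h1 : (univ : Set Λ) ⊆ ⋃ s ∈ S, (insert s {b | r b s}) := by
      intro b _
      obtain ⟨s, hs, hb⟩ := hcon b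
      rw [mem_iUnion₂]
      refine ⟨s, hs, ?_⟩
      rcases trichotomous_of r s b with h | h | h
      · exact absurd h hb
      · exact Or.inl h.symm
      · exact Or.inr h
    have h2 : #(⋃ s ∈ S, (insert s {b | r b s} : Set Λ)) ≤ ℵ_ m := by
      refine (Cardinal.mk_biUnion_le _ _).trans ?_
      have h3 : #S ≤ ℵ_ m := (hS.le_aleph0).trans (aleph0_le_aleph _)
      have h4 : (⨆ x : S, #(insert x.1 {b | r b x.1} : Set Λ)) ≤ ℵ_ m := by
        apply ciSup_le'
        intro x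
        refine (Cardinal.mk_insert_le).trans ?_
        have h5 : #({b | r b x.1} : Set Λ) ≤ ℵ_ m := hseg x.1
        calc #({b | r b x.1} : Set Λ) + 1 ≤ ℵ_ m + ℵ_ m := by
              refine add_le_add h5 ?_
              exact (one_le_aleph0).trans (aleph0_le_aleph _)
          _ = ℵ_ m := Cardinal.add_eq_self (aleph0_le_aleph _)
      calc #S * _ ≤ ℵ_ m * ℵ_ m := mul_le_mul' h3 h4
        _ = ℵ_ m := Cardinal.mul_eq_self (aleph0_le_aleph _)
    have h6 : #Λ ≤ ℵ_ m := by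
      rw [← Cardinal.mk_univ]
      exact (Cardinal.mk_le_mk_of_subset h1).trans h2
    rw [hΛ] at h6
    exact absurd h6 (not_le.2 (Order.lt_succ _))
  let Q : Type u := (ℵ_ m : Cardinal.{u}).out
  have hQ : #Q = ℵ_ m := Cardinal.mk_out _
  obtain ⟨c0, hc0, hcof⟩ := ih Q hQ
  have hE : Nonempty (Λ ≃ Λ × Q) := by
    rw [← Cardinal.eq, Cardinal.mk_prod, Cardinal.lift_id, Cardinal.lift_id, hQ]
    refine (Cardinal.mul_eq_left ?_ ?_ ?_).symm
    · rw [hΛ]
      exact (aleph0_le_aleph _).trans (Order.le_succ _)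
    · rw [hΛ]
      exact Order.le_succ _
    · exact (aleph_pos _).ne'
  obtain ⟨E⟩ := hE
  have hinj : ∀ b, ∃ e : {s // r s b} → Q, Function.Injective e := by
    intro b
    have h1 : Nonempty ({s // r s b} ↪ Q) := by
      rw [← Cardinal.le_def, hQ]
      exact hseg b
    exact ⟨h1.some, h1.some.injective⟩
  choose e he using hinj
  refine ⟨fun l => Subtype.val '' ((e (E l).1) ⁻¹' (c0 (E l).2)), fun l => ?_, fun S hS => ?_⟩
  · exact ((hc0 (E l).2).preimage_of_injOn (he _).injOn).image _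
  · obtain ⟨b, hb⟩ := hcov S hS
    have hT : ((e b) '' (Subtype.val ⁻¹' S)).Countable :=
      (hS.preimage_of_injOn Subtype.val_injective.injOn).image _
    obtain ⟨q, hq⟩ := hcof _ hT
    refine ⟨E.symm (b, q), fun s hs => ?_⟩
    change s ∈ (fun w : Λ × Q => Subtype.val '' ((e w.1) ⁻¹' (c0 w.2))) (E (E.symm (b, q)))
    rw [Equiv.apply_symm_apply]
    exact ⟨⟨s, hb s hs⟩, hq ⟨⟨s, hb s hs⟩, hs, rfl⟩, rfl⟩

/-- T6 -/
theorem cofinal (m : ℕ) : ∀ (Λ : Type u), #Λ = ℵ_ m → ∃ c : Λ → Set Λ, (∀ l, (c l).Countable) ∧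
    ∀ S : Set Λ, S.Countable → ∃ l, S ⊆ c l := by
  induction m with
  | zero =>
    intro Λ hΛ
    rw [Nat.cast_zero, aleph_zero] at hΛ
    have hc : Countable Λ := Cardinal.mk_le_aleph0_iff.1 hΛ.le
    have hne : Nonempty Λ := by
      rw [← Cardinal.mk_ne_zero_iff, hΛ]
      exact aleph0_ne_zero
    exact ⟨fun _ => univ, fun _ => countable_univ, fun S _ => ⟨hne.some, subset_univ S⟩⟩
  | succ m ih =>
    intro Λ hΛ
    apply T6_step m ih Λ
    rw [hΛ, Cardinal.succ_aleph, Nat.cast_succ]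

end Pool.Agent.H865.CM
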