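import Mathlib
import Pool.Agent.Results.MP_e848aa_gt.TfaeFreeSubset
import Pool.Agent.Results.MP_e848aa_gt.PerfectImages

set_option autoImplicit false

/-! Closed images of metalindelöf spaces: definitions shared by the modules. -/

namespace Pool.Agent.H865.CM

open Set Topology Cardinal

universe u

export Pool.Agent.Results.MP_e848aa_gt.PerfectImages (PointCountable
  HasPointCountableOpenRefinement Metalindelof ClosedMapping FreeSubsets)

/-- The points whose fibre is contained in `A`. -/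
def core {X Y : Type u} (f : X → Y) (A : Set X) : Set Y := {y | f ⁻¹' {y} ⊆ A}

theorem isOpen_core {X Y : Type u} [TopologicalSpace X] [TopologicalSpace Y] {f : X → Y}
    (hf : IsClosedMap f) {A : Set X} (hA : IsOpen A) : IsOpen (core f A) := by
  have : core f A = (f '' Aᶜ)ᶜ := by
    ext y
    simp only [core, mem_ofPred_eq, mem_compl_iff, mem_image, not_exists, not_and]
    constructor
    · rintro h x hx rfl
      exact hx (h rfl)
    · intro h x hx
      by_contra hxA
      exact h x hxA hx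
  rw [this]
  exact (hf _ hA.isClosed_compl).isOpen_compl

theorem core_mono {X Y : Type u} {f : X → Y} {A B : Set X} (h : A ⊆ B) : core f A ⊆ core f B :=
  fun _ hy => Subset.trans hy h

theorem mem_core {X Y : Type u} {f : X → Y} {A : Set X} {y : Y} :
    y ∈ core f A ↔ ∀ x, f x = y → x ∈ A := Iff.rfl

/-- Pay-off trees of depth `k` with values in `ℕ`. -/
def Pay (O : Type u) : ℕ → Type u
  | 0 => ULift.{u} ℕ
  | k + 1 => O → Pay O k

/-- The second player wins: the first player chooses `i`, the second answers with an element of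
`C i`, this is done `k` times, and the pay-off has to be smaller than `n`. -/
def Win {O ι : Type u} (C : ι → Set O) (n : ℕ) : (k : ℕ) → Pay O k → Prop
  | 0, p => (p : ULift.{u} ℕ).down < n
  | k + 1, p => ∀ i, ∃ o ∈ C i, Win C n k ((p : O → Pay O k) o)

/-- Countable intersections of open sets are neighbourhoods, relative to `E`. -/
def IsP {Y : Type u} [TopologicalSpace Y] (E : Set Y) : Prop :=
  ∀ y ∈ E, ∀ G : ℕ → Set Y, (∀ k, IsOpen (G k)) → (∀ k, y ∈ G k) →
    ∃ H, IsOpen H ∧ y ∈ H ∧ ∀ w ∈ H, w ∈ E → ∀ k, w ∈ G k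

/-- Every `Λ`-indexed family of open sets covering `E` has a refinement by open sets which covers
`E` and is point-countable at the points of `E`. -/
def IntG {Y : Type u} [TopologicalSpace Y] (Λ : Type u) (E : Set Y) : Prop :=
  ∀ U : Λ → Set Y, (∀ l, IsOpen (U l)) → E ⊆ ⋃ l, U l →
    ∃ G : Λ → Set Y, (∀ l, IsOpen (G l)) ∧ (∀ l, G l ⊆ U l) ∧ E ⊆ ⋃ l, G l ∧
      ∀ y ∈ E, {l | y ∈ G l}.Countable

/-- The same with a refinement which is point-countable at all points of the space. -/
def ExtG {Y : Type u} [TopologicalSpace Y] (Λ : Type u) (E : Set Y) : Prop :=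
  ∀ U : Λ → Set Y, (∀ l, IsOpen (U l)) → E ⊆ ⋃ l, U l →
    ∃ G : Λ → Set Y, (∀ l, IsOpen (G l)) ∧ (∀ l, G l ⊆ U l) ∧ E ⊆ ⋃ l, G l ∧
      ∀ y, {l | y ∈ G l}.Countable

/-- Monotone families have refinements which are point-countable at the points of `E`. -/
def Mono {Y : Type u} [TopologicalSpace Y] (E : Set Y) : Prop :=
  ∀ (θ : Type u) [LinearOrder θ] [WellFoundedLT θ] (B : θ → Set Y), (∀ d, IsOpen (B d)) →
    Monotone B → E ⊆ ⋃ d, B d →
    ∃ W : θ → Set Y, (∀ d, IsOpen (W d)) ∧ (∀ d, W d ⊆ B d) ∧ E ⊆ ⋃ d, W d ∧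
      ∀ y ∈ E, {d | y ∈ W d}.Countable

/-- The points whose fibre is not covered by fewer than `ℵ_ m` of the sets `V l`. -/
def Large {X Y : Type u} (f : X → Y) {Λ : Type u} (V : Λ → Set X) (m : ℕ) : Set Y :=
  {y | ∀ M : Set Λ, #M < ℵ_ m → ¬ f ⁻¹' {y} ⊆ ⋃ l ∈ M, V l}

end Pool.Agent.H865.CM
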