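import Pool.Agent.H865.CM.Defs

set_option autoImplicit false

/-! T4: from monotone covers to covers of cardinality `ℵ_ m`. -/

namespace Pool.Agent.H865.CM

open Set Topology Cardinal

universe u

/-- a family indexed by `J` whose members are covered by the `U a`, `a ∈ I i` -/
structure RedFam {Y : Type u} [TopologicalSpace Y] (E : Set Y) {Λ : Type u} (U : Λ → Set Y)
    (κ : Cardinal.{u}) (J : Type u) (W : J → Set Y) (I : J → Set Λ) : Prop where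
  isOpen : ∀ i, IsOpen (W i)
  count : ∀ y ∈ E, {i | y ∈ W i}.Countable
  cover : E ⊆ ⋃ i, W i
  card : ∀ i, #(I i) ≤ κ
  sub : ∀ i, W i ⊆ ⋃ a ∈ I i, U a

theorem red_step {Y : Type u} [TopologicalSpace Y] {E : Set Y} (hE : Mono E) {Λ : Type u}
    {U : Λ → Set Y} (hU : ∀ l, IsOpen (U l)) (j : ℕ) {J : Type u} {W : J → Set Y}
    {I : J → Set Λ} (h : RedFam E U (ℵ_ ((j + 1 : ℕ) : Ordinal)) J W I) :
    ∃ (J' : Type u) (W' : J' → Set Y) (I' : J' → Set Λ),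
      RedFam E U (ℵ_ (j : Ordinal)) J' W' I' := by
  classical
  set θ : Type u := (ℵ_ ((j + 1 : ℕ) : Ordinal) : Cardinal.{u}).ord.ToType with hθ
  have hcard : #θ = ℵ_ ((j + 1 : ℕ) : Ordinal) := mk_ord_toType _
  have hemb : ∀ i, Nonempty (I i ↪ θ) := by
    intro i
    rw [← Cardinal.le_def, hcard]
    exact h.card i
  have emb : ∀ i, I i ↪ θ := fun i => (hemb i).some
  set I2 : J × θ → Set Λ := fun x => {a | ∃ ha : a ∈ I x.1, emb x.1 ⟨a, ha⟩ ≤ x.2} with hI2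
  have hI2mono : ∀ i e e', e ≤ e' → I2 (i, e) ⊆ I2 (i, e') := by
    rintro i e e' hee a ⟨ha, hl⟩
    exact ⟨ha, hl.trans hee⟩
  set Q : θ → Set Y := fun e => ⋃ i, W i ∩ ⋃ a ∈ I2 (i, e), U a with hQ
  have hopen : ∀ i e, IsOpen (W i ∩ ⋃ a ∈ I2 (i, e), U a) := fun i e =>
    (h.isOpen i).inter (isOpen_biUnion fun a _ => hU a)
  have hQo : ∀ e, IsOpen (Q e) := fun e => isOpen_iUnion fun i => hopen i e
  have hQm : Monotone Q := by
    intro e e' hee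
    apply iUnion_mono
    intro i
    exact inter_subset_inter_right _ (biUnion_subset_biUnion_left (hI2mono i e e' hee))
  have hQc : E ⊆ ⋃ e, Q e := by
    intro y hy
    obtain ⟨i, hi⟩ := mem_iUnion.1 (h.cover hy)
    obtain ⟨a, ha, hya⟩ := mem_iUnion₂.1 (h.sub i hi)
    rw [mem_iUnion]
    refine ⟨emb i ⟨a, ha⟩, mem_iUnion.2 ⟨i, hi, mem_iUnion₂.2 ⟨a, ⟨ha, le_rfl⟩, hya⟩⟩⟩
  obtain ⟨V, hV1, hV2, hV3, hV4⟩ := hE θ Q hQo hQm hQc
  refine ⟨J × θ, fun x => V x.2 ∩ (W x.1 ∩ ⋃ a ∈ I2 x, U a), I2, ?_, ?_, ?_, ?_, ?_⟩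
  · rintro ⟨i, e⟩
    exact (hV1 e).inter (hopen i e)
  · intro y hy
    refine ((h.count y hy).prod (hV4 y hy)).mono ?_
    rintro ⟨i, e⟩ ⟨h1, h2, -⟩
    exact ⟨h2, h1⟩
  · intro y hy
    obtain ⟨e, he⟩ := mem_iUnion.1 (hV3 hy)
    obtain ⟨i, hi⟩ := mem_iUnion.1 (hV2 e he)
    exact mem_iUnion.2 ⟨(i, e), he, hi⟩
  · rintro ⟨i, e⟩
    have h1 : #(I2 (i, e)) ≤ #(Iic e) := by
      refine mk_le_of_injective (f := fun a => ⟨emb i ⟨a.1, a.2.choose⟩, a.2.choose_spec⟩) ?_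
      intro a b hab
      have h2 := congrArg Subtype.val hab
      have h3 := (emb i).injective h2
      exact Subtype.ext (Subtype.mk.inj h3)
    have h2 : #(Iic e) ≤ #(Iio e) + 1 := by
      rw [← Iio_insert]
      exact mk_insert_le
    have h3 : #(Iio e) ≤ ℵ_ (j : Ordinal) := by
      have h4 : #(Iio e) < ℵ_ ((j + 1 : ℕ) : Ordinal) := mk_Iio_toType_ord_lt e
      have h5 : (ℵ_ ((j + 1 : ℕ) : Ordinal) : Cardinal.{u}) = Order.succ (ℵ_ (j : Ordinal)) := by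
        rw [Nat.cast_succ, ← Order.succ_eq_add_one, aleph_succ]
      exact Order.lt_succ_iff.1 (h4.trans_eq h5)
    calc #(I2 (i, e)) ≤ #(Iio e) + 1 := h1.trans h2
      _ ≤ ℵ_ (j : Ordinal) + 1 := add_le_add_left h3 1
      _ = ℵ_ (j : Ordinal) := add_one_eq (aleph0_le_aleph _)
  · rintro ⟨i, e⟩
    exact inter_subset_right.trans inter_subset_right

theorem red_all {Y : Type u} [TopologicalSpace Y] {E : Set Y} (hE : Mono E) {Λ : Type u}
    {U : Λ → Set Y} (hU : ∀ l, IsOpen (U l)) (j : ℕ) : ∀ {J : Type u} {W : J → Set Y}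
    {I : J → Set Λ}, RedFam E U (ℵ_ (j : Ordinal)) J W I →
    ∃ (J' : Type u) (W' : J' → Set Y) (I' : J' → Set Λ), RedFam E U ℵ₀ J' W' I' := by
  induction j with
  | zero =>
    intro J W I h
    rw [Nat.cast_zero, aleph_zero] at h
    exact ⟨J, W, I, h⟩
  | succ j ih =>
    intro J W I h
    obtain ⟨J', W', I', h'⟩ := red_step hE hU j h
    exact ih h'

/-- T4 -/
theorem reduce {Y : Type u} [TopologicalSpace Y] {E : Set Y} (hE : Mono E) (m : ℕ) {Λ : Type u}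
    (hΛ : #Λ ≤ ℵ_ m) : IntG Λ E := by
  intro U hU hcov
  have h0 : RedFam E U (ℵ_ (m : Ordinal)) PUnit.{u + 1} (fun _ => ⋃ l, U l) (fun _ => univ) := by
    refine ⟨fun _ => isOpen_iUnion hU, fun y _ => Set.to_countable _, ?_, ?_, ?_⟩
    · intro y hy
      exact mem_iUnion.2 ⟨PUnit.unit, hcov hy⟩
    · intro i
      rw [mk_univ]
      exact hΛ
    · intro i y hy
      obtain ⟨l, hl⟩ := mem_iUnion.1 hy
      exact mem_iUnion₂.2 ⟨l, mem_univ l, hl⟩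
  obtain ⟨J, W, I, h⟩ := red_all hE hU m h0
  refine ⟨fun a => ⋃ i, ⋃ (_ : a ∈ I i), W i ∩ U a, ?_, ?_, ?_, ?_⟩
  · intro a
    exact isOpen_iUnion fun i => isOpen_iUnion fun _ => (h.isOpen i).inter (hU a)
  · intro a
    exact iUnion_subset fun i => iUnion_subset fun _ => inter_subset_right
  · intro y hy
    obtain ⟨i, hi⟩ := mem_iUnion.1 (h.cover hy)
    obtain ⟨a, ha, hya⟩ := mem_iUnion₂.1 (h.sub i hi)
    exact mem_iUnion.2 ⟨a, mem_iUnion₂.2 ⟨i, ha, hi, hya⟩⟩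
  · intro y hy
    have h1 : (⋃ i ∈ {i | y ∈ W i}, I i).Countable :=
      (h.count y hy).biUnion fun i _ => le_aleph0_iff_set_countable.1 (h.card i)
    refine h1.mono ?_
    intro a ha
    obtain ⟨i, hai, hi, -⟩ := mem_iUnion₂.1 ha
    exact mem_iUnion₂.2 ⟨i, hi, hai⟩

end Pool.Agent.H865.CM
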