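import Pool.Agent.H865.CM.Defs

set_option autoImplicit false

/-! Task T1: the game lemma. -/

namespace Pool.Agent.H865.CM

open Set Topology Cardinal

universe u

/-- pull back of a pay-off tree -/
def comb_pull {O Q : Type u} (e : O → Q) : (k : ℕ) → Pay Q k → Pay O k
  | 0, p => p
  | k + 1, p => fun o => comb_pull e k ((p : Q → Pay Q k) (e o))

theorem comb_win_pull {O Q ι : Type u} (e : O → Q) (C : ι → Set O) (A : Set ι) (n : ℕ) :
    ∀ (k : ℕ) (p : Pay Q k), Win C n k (comb_pull e k p) →
      Win (fun i : A => e '' C i) n k p := by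
  intro k
  induction k with
  | zero => intro p h; exact h
  | succ k ih =>
    intro p h i
    obtain ⟨o, ho, hw⟩ := h i
    exact ⟨e o, mem_image_of_mem e ho, ih _ hw⟩

theorem comb_union {ι O : Type u} (C : ι → Set O) (A : Set ι) (hC : ∀ i, (C i).Countable)
    {κ : Cardinal.{u}} (hκ : ℵ₀ ≤ κ) (hA : #A ≤ κ) : #(⋃ i ∈ A, C i : Set O) ≤ κ := by
  refine (mk_biUnion_le C A).trans ?_
  have h1 : (⨆ x : A, #(C x)) ≤ ℵ₀ := ciSup_le' fun x => le_aleph0_iff_set_countable.mpr (hC x)
  exact (mul_le_mul' hA h1).trans (mul_aleph0_eq hκ).le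

theorem comb_union' {ι O : Type u} (C : ι → Set O) (A : Set ι)
    {κ : Cardinal.{u}} (hκ : ℵ₀ ≤ κ) (hC : ∀ i, #(C i) ≤ κ) (hA : #A ≤ κ) :
    #(⋃ i ∈ A, C i : Set O) ≤ κ := by
  refine (mk_biUnion_le C A).trans ?_
  have h1 : (⨆ x : A, #(C x)) ≤ κ := ciSup_le' fun x => hC x
  exact (mul_le_mul' hA h1).trans (mul_eq_self hκ).le

theorem comb_succ (m : ℕ) : (ℵ_ ((m + 1 : ℕ) : Ordinal.{u}) : Cardinal.{u}) =
    Order.succ (ℵ_ (m : Ordinal.{u})) := by
  rw [Nat.cast_succ, succ_aleph]

/-- T1 -/
theorem comb (m : ℕ) : ∀ (O : Type u), #O ≤ ℵ_ m → ∃ p : Pay O (m + 1), ∀ (ι : Type u)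
    (C : ι → Set O) (n : ℕ), (∀ i, (C i).Countable) → Win C n (m + 1) p →
    ∃ M : Set O, #M < ℵ_ m ∧ ∀ i, (C i ∩ M).Nonempty := by
  classical
  induction m with
  | zero =>
    intro O hO
    rw [Nat.cast_zero, aleph_zero] at hO
    have hc : Countable O := mk_le_aleph0_iff.mp hO
    obtain ⟨g, hg⟩ := exists_injective_nat O
    refine ⟨fun o => ULift.up (g o), ?_⟩
    intro ι C n _ hw
    refine ⟨{o | g o < n}, ?_, ?_⟩
    · rw [Nat.cast_zero, aleph_zero, lt_aleph0_iff_set_finite]
      exact (Set.finite_Iio n).preimage hg.injOn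
    · intro i
      obtain ⟨o, ho, hlt⟩ := hw i
      exact ⟨o, ho, hlt⟩
  | succ m ih =>
    intro O hO
    obtain ⟨r, wo, hr⟩ := exists_ord_eq O
    -- initial segments are small
    have hseg : ∀ g : O, #{s | r s g} ≤ ℵ_ (m : Ordinal.{u}) := by
      intro g
      have h1 := Ordinal.card_typein (r := r) g
      have h2 := card_typein_lt (r := r) g hr
      rw [h1] at h2
      have h3 := h2.trans_le hO
      rw [comb_succ, Order.lt_succ_iff] at h3
      exact h3
    have hal : (ℵ₀ : Cardinal.{u}) ≤ ℵ_ (m : Ordinal.{u}) := aleph0_le_aleph _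
    set κ : Cardinal.{u} := ℵ_ (m : Ordinal.{u}) with hκ
    let Q : Type u := κ.out
    have hQ : #Q = κ := mk_out κ
    obtain ⟨p0, hp0⟩ := ih Q hQ.le
    have hQne : Nonempty Q := by
      rw [← mk_ne_zero_iff, hQ]
      exact (aleph0_pos.trans_le hal).ne'
    -- embeddings of the initial segments
    have he : ∀ g : O, ∃ e : O → Q, InjOn e {s | r s g} := by
      intro g
      have h1 : #{s | r s g} ≤ #Q := by rw [hQ]; exact hseg g
      obtain ⟨f⟩ := h1
      refine ⟨fun s => if h : r s g then f ⟨s, h⟩ else Classical.choice hQne, ?_⟩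
      intro s hs t ht hst
      have hs' : r s g := hs
      have ht' : r t g := ht
      simp only [dif_pos hs', dif_pos ht'] at hst
      have := f.injective hst
      exact congrArg Subtype.val this
    choose e he using he
    refine ⟨fun g => comb_pull (e g) (m + 1) p0, ?_⟩
    intro ι C n hC hw
    have hne : ∀ i, (C i).Nonempty := by
      intro i
      obtain ⟨o, ho, _⟩ := hw i
      exact ⟨o, ho⟩
    by_contra hcon
    push Not at hcon
    -- a maximal disjoint subfamily
    obtain ⟨A, hA⟩ := zorn_subset {A : Set ι | A.PairwiseDisjoint C} (by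
      intro c hc hchain
      refine ⟨⋃₀ c, ?_, fun s hs => subset_sUnion_of_mem hs⟩
      exact (pairwiseDisjoint_sUnion hchain.directedOn).mpr fun a ha => hc ha)
    have hAd : A.PairwiseDisjoint C := hA.prop
    set S : Set O := ⋃ i ∈ A, C i with hS
    have hit : ∀ i, (C i ∩ S).Nonempty := by
      intro i
      by_contra h
      rw [not_nonempty_iff_eq_empty] at h
      have hiA : i ∉ A := by
        intro hi
        have h1 : C i ⊆ S := by
          rw [hS]
          exact subset_biUnion_of_mem (u := C) hi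
        rw [inter_eq_left.mpr h1] at h
        exact (hne i).ne_empty h
      have h2 : (insert i A).PairwiseDisjoint C := by
        refine hAd.insert fun j hj _ => ?_
        rw [disjoint_iff_inter_eq_empty]
        have h1 : C j ⊆ S := by
          rw [hS]
          exact subset_biUnion_of_mem (u := C) hj
        exact subset_eq_empty (inter_subset_inter_right _ h1) h
      have h3 := hA.eq_of_subset h2 (subset_insert i A)
      rw [h3] at hiA
      exact hiA (mem_insert i A)
    have hSbig : ¬ #S < ℵ_ ((m + 1 : ℕ) : Ordinal.{u}) := by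
      intro h
      obtain ⟨i, hi⟩ := hcon S h
      exact (hit i).ne_empty hi
    have hAbig : κ ≤ #A := by
      by_contra h
      push Not at h
      apply hSbig
      rw [comb_succ, Order.lt_succ_iff]
      exact comb_union C A hC hal h.le
    obtain ⟨A', hA'A, hA'card⟩ := le_mk_iff_exists_subset.mp hAbig
    set S' : Set O := ⋃ i ∈ A', C i with hS'
    have hS'card : #S' ≤ κ := comb_union C A' hC hal hA'card.le
    set D : Set O := S' ∪ ⋃ s ∈ S', {o | r o s} with hD
    have hDcard : #D ≤ κ := by
      refine (mk_union_le _ _).trans ?_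
      have h1 : #(⋃ s ∈ S', {o | r o s} : Set O) ≤ κ :=
        comb_union' (fun s => {o | r o s}) S' hal hseg hS'card
      exact (add_le_add hS'card h1).trans (add_eq_self hal).le
    obtain ⟨i1, hi1⟩ := hcon D (by rw [comb_succ, Order.lt_succ_iff]; exact hDcard)
    obtain ⟨g, hg, hwg⟩ := hw i1
    have hgD : g ∉ D := fun h =>
      Set.Nonempty.ne_empty (⟨g, hg, h⟩ : (C i1 ∩ D).Nonempty) hi1
    have hrs : ∀ s ∈ S', r s g := by
      intro s hs
      rcases trichotomous_of r s g with h | h | h
      · exact h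
      · exact absurd (Or.inl (h ▸ hs)) hgD
      · exact absurd (Or.inr (mem_biUnion hs h)) hgD
    have hinj : InjOn (e g) S' := (he g).mono hrs
    have hwin := comb_win_pull (e g) C A' n (m + 1) p0 hwg
    obtain ⟨M', hM'card, hM'⟩ := hp0 A' (fun i : A' => e g '' C i) n
      (fun i => (hC i).image _) hwin
    -- an injection of `A'` into `M'`
    have hsel : ∀ i : A', ∃ q : M', (q : Q) ∈ e g '' C i := by
      intro i
      obtain ⟨q, hq1, hq2⟩ := hM' i
      exact ⟨⟨q, hq2⟩, hq1⟩
    choose φ hφ using hsel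
    have hφinj : Function.Injective φ := by
      intro i j hij
      by_contra hne'
      obtain ⟨x, hx, hx2⟩ := hφ i
      obtain ⟨y, hy, hy2⟩ := hφ j
      rw [← hij, ← hx2] at hy2
      have hxS : x ∈ S' := by rw [hS']; exact mem_biUnion i.2 hx
      have hyS : y ∈ S' := by rw [hS']; exact mem_biUnion j.2 hy
      have hxy : y = x := hinj hyS hxS hy2
      have hd := hAd (hA'A i.2) (hA'A j.2) (fun h => hne' (Subtype.ext h))
      rw [hxy] at hy
      exact Set.disjoint_left.mp hd hx hy
    have hle : #A' ≤ #M' := mk_le_of_injective hφinj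
    rw [hA'card] at hle
    exact absurd hM'card (not_lt.mpr hle)

end Pool.Agent.H865.CM
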