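import Pool.Agent.H865.CM.Defs
import Pool.Agent.H865.CM.T1

set_option autoImplicit false

/-! The neighbourhood obtained from the game. -/

namespace Pool.Agent.H865.CM

open Set Topology Cardinal

universe u

section Aux

variable {X Y : Type u} [TopologicalSpace X] [TopologicalSpace Y]

/-- The open sets attached to the pay-off trees. -/
def aset (f : X → Y) {O : Type u} (V : O → Set X) (G : ℕ → Set Y) : (k : ℕ) → Pay O k → Set Y
  | 0, p => G (p : ULift.{u} ℕ).down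
  | k + 1, p => core f (⋃ o : O, V o ∩ f ⁻¹' (aset f V G k ((p : O → Pay O k) o)))

theorem aset_open {f : X → Y} (hf : Continuous f) (hcl : IsClosedMap f) {O : Type u}
    {V : O → Set X} (hV : ∀ o, IsOpen (V o)) {G : ℕ → Set Y} (hG : ∀ k, IsOpen (G k)) :
    ∀ (k : ℕ) (p : Pay O k), IsOpen (aset f V G k p)
  | 0, p => hG _
  | k + 1, p => by
    refine isOpen_core hcl (isOpen_iUnion fun o => (hV o).inter ?_)
    exact (aset_open hf hcl hV hG k _).preimage hf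

omit [TopologicalSpace X] [TopologicalSpace Y] in
theorem aset_mem {f : X → Y} {O : Type u} {V : O → Set X} {G : ℕ → Set Y} {y : Y}
    (hy : f ⁻¹' {y} ⊆ ⋃ o, V o) (hyG : ∀ k, y ∈ G k) :
    ∀ (k : ℕ) (p : Pay O k), y ∈ aset f V G k p
  | 0, p => hyG _
  | k + 1, p => by
    refine mem_core.2 fun x hx => ?_
    obtain ⟨o, ho⟩ := mem_iUnion.1 (hy (show x ∈ f ⁻¹' {y} from hx))
    refine mem_iUnion.2 ⟨o, ho, ?_⟩
    have h2 : f x ∈ aset f V G k ((p : O → Pay O k) o) := by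
      rw [hx]
      exact aset_mem hy hyG k _
    exact h2

omit [TopologicalSpace X] [TopologicalSpace Y] in
theorem aset_win {f : X → Y} {O : Type u} {V : O → Set X} {G : ℕ → Set Y}
    (hGa : Antitone G) {w : Y} {n : ℕ} (hn : w ∉ G n) :
    ∀ (k : ℕ) (p : Pay O k), w ∈ aset f V G k p →
      Win (fun x : {x // f x = w} => {o : O | (x : X) ∈ V o}) n k p
  | 0, p, hw => by
    change (p : ULift.{u} ℕ).down < n
    by_contra hcon
    exact hn (hGa (not_lt.1 hcon) hw)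
  | k + 1, p, hw => by
    intro x
    obtain ⟨o, ho⟩ := mem_iUnion.1 (mem_core.1 hw x.1 x.2)
    refine ⟨o, ho.1, aset_win hGa hn k _ ?_⟩
    have h2 : f x.1 ∈ aset f V G k ((p : O → Pay O k) o) := ho.2
    rw [x.2] at h2
    exact h2

end Aux

theorem pnbhd_of_comb (m : ℕ)
    (comb : ∀ (O : Type u), #O ≤ ℵ_ m → ∃ p : Pay O (m + 1), ∀ (ι : Type u)
      (C : ι → Set O) (n : ℕ), (∀ i, (C i).Countable) → Win C n (m + 1) p →
      ∃ M : Set O, #M < ℵ_ m ∧ ∀ i, (C i ∩ M).Nonempty)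
    {X Y : Type u} [TopologicalSpace X] [TopologicalSpace Y] {f : X → Y}
    (hf : Continuous f) (hcl : IsClosedMap f) {Λ : Type u} (V : Λ → Set X)
    (hV : ∀ l, IsOpen (V l)) (hVc : ∀ x, {l | x ∈ V l}.Countable) (y : Y) (M : Set Λ)
    (hM : #M ≤ ℵ_ m) (hy : f ⁻¹' {y} ⊆ ⋃ l ∈ M, V l) (G : ℕ → Set Y) (hG : ∀ k, IsOpen (G k))
    (hyG : ∀ k, y ∈ G k) :
    ∃ H : Set Y, IsOpen H ∧ y ∈ H ∧ ∀ w ∈ H, (∃ k, w ∉ G k) →
      ∃ M' : Set Λ, #M' < ℵ_ m ∧ f ⁻¹' {w} ⊆ ⋃ l ∈ M', V l := by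
  classical
  obtain ⟨p, hp⟩ := comb M hM
  set G' : ℕ → Set Y := fun n => ⋂ k ∈ Finset.range (n + 1), G k with hG'
  have hG'o : ∀ n, IsOpen (G' n) := fun n => isOpen_biInter_finset fun k _ => hG k
  have hG'a : Antitone G' := by
    intro a b hab
    refine biInter_subset_biInter_left ?_
    intro k hk
    exact Finset.mem_coe.2 (Finset.mem_range.2 (lt_of_lt_of_le (Finset.mem_range.1 hk) (by omega)))
  have hyG' : ∀ n, y ∈ G' n := fun n => mem_iInter₂.2 fun k _ => hyG k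
  have hsub : ∀ k, G' k ⊆ G k := fun k =>
    biInter_subset_of_mem (Finset.mem_coe.2 (Finset.mem_range.2 (Nat.lt_succ_self k)))
  let V' : M → Set X := fun o => V o
  have hy' : f ⁻¹' {y} ⊆ ⋃ o, V' o := by
    refine hy.trans ?_
    intro x hx
    obtain ⟨l, hl, hxl⟩ := mem_iUnion₂.1 hx
    exact mem_iUnion.2 ⟨⟨l, hl⟩, hxl⟩
  refine ⟨aset f V' G' (m + 1) p, aset_open hf hcl (fun o => hV _) hG'o _ _,
    aset_mem hy' hyG' _ _, ?_⟩
  rintro w hw ⟨k, hk⟩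
  have hk' : w ∉ G' k := fun h => hk (hsub k h)
  obtain ⟨M0, hM0, hM0'⟩ := hp {x // f x = w} (fun x => {o : M | (x : X) ∈ V' o}) k
    (fun x => (hVc x.1).preimage Subtype.val_injective) (aset_win hG'a hk' _ _ hw)
  refine ⟨Subtype.val '' M0, lt_of_le_of_lt mk_image_le hM0, ?_⟩
  intro x hx
  obtain ⟨o, ho, hoM⟩ := hM0' ⟨x, hx⟩
  exact mem_iUnion₂.2 ⟨o.1, ⟨o, hoM, rfl⟩, ho⟩

theorem pnbhd {X Y : Type u} [TopologicalSpace X] [TopologicalSpace Y] {f : X → Y}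
    (hf : Continuous f) (hcl : IsClosedMap f) (m : ℕ) {Λ : Type u} (V : Λ → Set X)
    (hV : ∀ l, IsOpen (V l)) (hVc : ∀ x, {l | x ∈ V l}.Countable) (y : Y) (M : Set Λ)
    (hM : #M ≤ ℵ_ m) (hy : f ⁻¹' {y} ⊆ ⋃ l ∈ M, V l) (G : ℕ → Set Y) (hG : ∀ k, IsOpen (G k))
    (hyG : ∀ k, y ∈ G k) :
    ∃ H : Set Y, IsOpen H ∧ y ∈ H ∧ ∀ w ∈ H, (∃ k, w ∉ G k) →
      ∃ M' : Set Λ, #M' < ℵ_ m ∧ f ⁻¹' {w} ⊆ ⋃ l ∈ M', V l :=
  pnbhd_of_comb m (comb m) hf hcl V hV hVc y M hM hy G hG hyG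

end Pool.Agent.H865.CM
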