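import Pool.Agent.H865.CM.Defs

set_option autoImplicit false

/-! Task T3 (helper640): monotone covers. -/

namespace Pool.Agent.H865.CM

open Set Topology Cardinal

universe u

/-- shrinking relative to a closed set `E` -/
theorem mono_shrink {X Y : Type u} [TopologicalSpace X] [TopologicalSpace Y] {f : X → Y}
    (hf : ClosedMapping f) (hX : Metalindelof X) {E : Set Y} (hE : IsClosed E) {θ : Type u}
    (W : θ → Set Y) (hW : ∀ d, IsOpen (W d)) (hc : E ⊆ ⋃ d, W d) :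
    ∃ V : θ → Set X, (∀ d, IsOpen (V d)) ∧ (∀ d, V d ⊆ f ⁻¹' W d) ∧
      (∀ x, f x ∈ E → ∃ d, x ∈ V d) ∧ ∀ x, {d | x ∈ V d}.Countable := by
  obtain ⟨V, h1, h2, h3, h4⟩ := Pool.Agent.Results.MP_e848aa_gt.PerfectImages.shrink hX
    (ι := Option θ) (U := fun o => o.elim (f ⁻¹' E)ᶜ (fun d => f ⁻¹' W d)) (by
      rintro (_ | d)
      · exact (hE.preimage hf.continuous).isOpen_compl
      · exact (hW d).preimage hf.continuous) (by
      refine eq_univ_of_forall fun x => ?_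
      by_cases hx : f x ∈ E
      · obtain ⟨d, hd⟩ := mem_iUnion.1 (hc hx)
        exact mem_iUnion.2 ⟨some d, hd⟩
      · exact mem_iUnion.2 ⟨none, hx⟩)
  refine ⟨fun d => V (some d), fun d => h1 _, fun d => h2 (some d), fun x hx => ?_, fun x => ?_⟩
  · obtain ⟨o, ho⟩ := mem_iUnion.1 (h3 ▸ mem_univ x : x ∈ ⋃ o, V o)
    rcases o with _ | d
    · exact absurd hx (h2 none ho)
    · exact ⟨d, ho⟩
  · exact (h4 x).preimage (Option.some_injective θ)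

/-- the lower closure of a set -/
def lcl {θ : Type u} [LE θ] (C : Set θ) : Set θ := {a | ∃ d ∈ C, a ≤ d}

/-- lower sets in which a given countable set is cofinal -/
theorem lcl_countable {θ : Type u} [LinearOrder θ] [WellFoundedLT θ] {C : Set θ}
    (hC : C.Countable) (P : Set (Set θ)) (hP : ∀ s ∈ P, (∀ a ∈ s, ∀ b ≤ a, b ∈ s) ∧
      ∀ a ∈ s, ∃ d ∈ C, d ∈ s ∧ a ≤ d) : P.Countable := by
  have h1 : P ⊆ insert (lcl C) ((fun a => lcl {c ∈ C | c < a}) '' C) := by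
    intro s hs
    obtain ⟨hs1, hs2⟩ := hP s hs
    have hgen : ∀ D : Set θ, (∀ d, d ∈ D ↔ d ∈ C ∧ d ∈ s) → s = lcl D := by
      intro D hD
      ext a
      constructor
      · intro ha
        obtain ⟨d, hd1, hd2, hd3⟩ := hs2 a ha
        exact ⟨d, (hD d).2 ⟨hd1, hd2⟩, hd3⟩
      · rintro ⟨d, hd, had⟩
        exact hs1 d ((hD d).1 hd).2 a had
    by_cases hCs : C ⊆ s
    · left
      exact hgen C fun d => ⟨fun h => ⟨h, hCs h⟩, fun h => h.1⟩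
    · right
      have hne : (C \ s).Nonempty := by
        rw [Set.not_subset] at hCs
        obtain ⟨a, ha1, ha2⟩ := hCs
        exact ⟨a, ha1, ha2⟩
      obtain ⟨a, ⟨haC, has⟩, hmin⟩ := WellFounded.has_min (wellFounded_lt (α := θ)) (C \ s) hne
      refine ⟨a, haC, (hgen _ fun d => ?_).symm⟩
      constructor
      · rintro ⟨hdC, hda⟩
        refine ⟨hdC, ?_⟩
        by_contra hds
        exact hmin d ⟨hdC, hds⟩ hda
      · rintro ⟨hdC, hds⟩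
        refine ⟨hdC, ?_⟩
        by_contra hda
        exact has (hs1 d hds a (not_lt.1 hda))
  exact ((hC.image _).insert _).mono h1

/-- T3 -/
theorem mono {X Y : Type u} [TopologicalSpace X] [TopologicalSpace Y] {f : X → Y}
    (hf : ClosedMapping f) (hX : Metalindelof X) {E : Set Y} (hE : IsClosed E) (hP : IsP E) :
    Mono E := by
  classical
  intro θ _ _ B hBo hBm hBc
  rcases isEmpty_or_nonempty θ with hemp | hne
  · exact ⟨B, hBo, fun d => Subset.rfl, hBc, fun y _ => Set.to_countable _⟩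
  let St : Type u := {W : θ → Set Y // (∀ d, IsOpen (W d)) ∧ (∀ d, W d ⊆ B d) ∧ E ⊆ ⋃ d, W d}
  choose V hV1 hV2 hV3 hV4 using fun W : St => mono_shrink hf hX hE W.1 W.2.1 W.2.2.2
  -- the least index
  have hleast : ∀ y ∈ E, ∃ d, y ∈ B d ∧ ∀ d', y ∈ B d' → d ≤ d' := by
    intro y hy
    obtain ⟨d, hd⟩ := mem_iUnion.1 (hBc hy)
    obtain ⟨a, ha, hmin⟩ := WellFounded.has_min (wellFounded_lt (α := θ)) {d | y ∈ B d} ⟨d, hd⟩
    exact ⟨a, ha, fun d' hd' => not_lt.1 (hmin d' hd')⟩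
  have hnextc : ∀ W : St, ∀ y ∈ E, ∀ d, y ∈ B d → (∀ d', y ∈ B d' → d ≤ d') →
      y ∈ B d ∩ core f (⋃ d' ∈ {d' | d ≤ d'}, V W d') := by
    intro W y hy d hd hmin
    refine ⟨hd, ?_⟩
    rw [mem_core]
    intro x hx
    obtain ⟨d', hd'⟩ := hV3 W x (hx ▸ hy)
    have h1 : f x ∈ W.1 d' := hV2 W d' hd'
    rw [hx] at h1
    exact mem_biUnion (hmin d' (W.2.2.1 d' h1) : d' ∈ {d' | d ≤ d'}) hd'
  let next : St → St := fun W => ⟨fun d => B d ∩ core f (⋃ d' ∈ {d' | d ≤ d'}, V W d'),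
    fun d => (hBo d).inter (isOpen_core hf.isClosedMap (isOpen_biUnion fun d' _ => hV1 W d')),
    fun d => inter_subset_left, fun y hy => by
      obtain ⟨d, hd, hmin⟩ := hleast y hy
      exact mem_iUnion.2 ⟨d, hnextc W y hy d hd hmin⟩⟩
  obtain ⟨S, hS⟩ : ∃ S : ℕ → St, ∀ n, S (n + 1) = next (S n) :=
    ⟨fun n => Nat.rec ⟨B, hBo, fun _ => Subset.rfl, hBc⟩ (fun _ W => next W) n, fun n => rfl⟩
  have hmem : ∀ n y d, y ∈ (S (n + 1)).1 d ↔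
      y ∈ B d ∧ ∀ x, f x = y → ∃ d', d ≤ d' ∧ x ∈ V (S n) d' := by
    intro n y d
    rw [hS]
    change y ∈ B d ∩ core f (⋃ d' ∈ {d' | d ≤ d'}, V (S n) d') ↔ _
    rw [mem_inter_iff, mem_core]
    refine and_congr Iff.rfl (forall_congr' fun x => imp_congr Iff.rfl ?_)
    rw [mem_iUnion₂]
    exact ⟨fun ⟨d', h1, h2⟩ => ⟨d', h1, h2⟩, fun ⟨d', h1, h2⟩ => ⟨d', h1, h2⟩⟩
  -- (a)
  have ha : ∀ n y d, y ∈ (S (n + 1 + 1)).1 d → y ∈ (S (n + 1)).1 d := by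
    intro n y d h
    rw [hmem] at h ⊢
    refine ⟨h.1, fun x hx => ?_⟩
    obtain ⟨d', hd', hxd'⟩ := h.2 x hx
    have h1 : f x ∈ (S (n + 1)).1 d' := hV2 _ d' hxd'
    rw [hx, hmem] at h1
    obtain ⟨d'', h2, h3⟩ := h1.2 x hx
    exact ⟨d'', hd'.trans h2, h3⟩
  -- (b)
  have hb : ∀ n y d d1, y ∈ (S (n + 1)).1 d → d1 ≤ d → y ∈ B d1 → y ∈ (S (n + 1)).1 d1 := by
    intro n y d d1 h h1 h2
    rw [hmem] at h ⊢
    refine ⟨h2, fun x hx => ?_⟩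
    obtain ⟨d', hd', hxd'⟩ := h.2 x hx
    exact ⟨d', h1.trans hd', hxd'⟩
  -- (c)
  have hcst : ∀ y, ∃ n, ∀ d, y ∈ (S (n + 1)).1 d → y ∈ (S (n + 1 + 1)).1 d := by
    intro y
    by_contra hcon
    push Not at hcon
    choose e he1 he2 using hcon
    have hanti : StrictAnti e := by
      refine strictAnti_nat_of_succ_lt fun n => ?_
      by_contra hlt
      exact he2 n (hb (n + 1) y (e (n + 1)) (e n) (he1 (n + 1)) (not_lt.1 hlt)
        (((hmem n y (e n)).1 (he1 n)).1))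
    exact not_strictAnti_of_wellFoundedLT e hanti
  -- good lower sets
  obtain ⟨Good, hGood⟩ : ∃ Good : Set (Set θ), ∀ s, s ∈ Good ↔ (∀ a ∈ s, ∀ b ≤ a, b ∈ s) ∧
    ∃ q : ℕ → θ, (∀ k, q k ∈ s) ∧ ∀ a ∈ s, ∃ k, a ≤ q k :=
    ⟨{s | (∀ a ∈ s, ∀ b ≤ a, b ∈ s) ∧
    ∃ q : ℕ → θ, (∀ k, q k ∈ s) ∧ ∀ a ∈ s, ∃ k, a ≤ q k}, fun s => Iff.rfl⟩
  have hq : ∀ s : Set θ, ∃ q : ℕ → θ, s ∈ Good → (∀ k, q k ∈ s) ∧ ∀ a ∈ s, ∃ k, a ≤ q k := by
    intro s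
    by_cases hs : s ∈ Good
    · obtain ⟨_, q, h⟩ := (hGood s).1 hs
      exact ⟨q, fun _ => h⟩
    · obtain ⟨t⟩ := hne
      exact ⟨fun _ => t, fun h => absurd h hs⟩
  choose q hq using hq
  obtain ⟨Z, hZdef⟩ : ∃ Z : ℕ → Set θ → Set Y, ∀ n s, Z n s =
      ⋂ k, core f (⋃ d ∈ {d | d ∈ s ∧ q s k ≤ d}, V (S n) d) := ⟨_, fun n s => rfl⟩
  have hZmem : ∀ n s y, y ∈ Z n s ↔ ∀ k, ∀ x, f x = y → ∃ d, (d ∈ s ∧ q s k ≤ d) ∧
      x ∈ V (S n) d := by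
    intro n s y
    rw [hZdef, mem_iInter]
    refine forall_congr' fun k => ?_
    rw [mem_core]
    refine forall_congr' fun x => imp_congr Iff.rfl ?_
    rw [mem_iUnion₂]
    exact ⟨fun ⟨d', h1, h2⟩ => ⟨d', h1, h2⟩, fun ⟨d', h1, h2⟩ => ⟨d', h1, h2⟩⟩
  obtain ⟨Zt, hZtdef⟩ : ∃ Zt : ℕ → Set θ → Set Y, ∀ n s, Zt n s =
      ⋃₀ {H | IsOpen H ∧ ∀ w ∈ H, w ∈ E → w ∈ Z n s} := ⟨_, fun n s => rfl⟩
  have hZt1 : ∀ n s, IsOpen (Zt n s) := fun n s => by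
    rw [hZtdef]; exact isOpen_sUnion fun H hH => hH.1
  have hZt2 : ∀ n s, ∀ y ∈ E, y ∈ Zt n s → y ∈ Z n s := by
    intro n s y hy h
    rw [hZtdef] at h
    obtain ⟨H, hH, hyH⟩ := h
    exact hH.2 y hyH hy
  have hZt3 : ∀ n s, ∀ y ∈ E, y ∈ Z n s → y ∈ Zt n s := by
    intro n s y hy hyZ
    rw [hZdef] at hyZ
    rw [hZtdef]
    obtain ⟨H, hH1, hH2, hH3⟩ := hP y hy (fun k => core f (⋃ d ∈ {d | d ∈ s ∧ q s k ≤ d}, V (S n) d))
      (fun k => isOpen_core hf.isClosedMap (isOpen_biUnion fun d' _ => hV1 _ d'))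
      (fun k => mem_iInter.1 hyZ k)
    exact ⟨H, ⟨hH1, fun w hw hwE => by rw [hZdef]; exact mem_iInter.2 (hH3 w hw hwE)⟩, hH2⟩
  refine ⟨fun d => ⋃ n, ⋃ s ∈ {s | s ∈ Good ∧ ∃ k, q s k = d}, Zt n s ∩ B d, ?_, ?_, ?_, ?_⟩
  · intro d
    exact isOpen_iUnion fun n => isOpen_biUnion fun s _ => (hZt1 n s).inter (hBo d)
  · intro d y hy
    simp only [mem_iUnion] at hy
    obtain ⟨_, _, _, h⟩ := hy
    exact h.2
  · intro y hy
    obtain ⟨n, hn⟩ := hcst y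
    obtain ⟨x, hx⟩ := hf.surjective y
    obtain ⟨d0, hd0, hmin⟩ := hleast y hy
    set D : Set θ := {d | y ∈ (S (n + 1)).1 d} with hD
    have hd0D : d0 ∈ D := by
      rw [hD, Set.mem_ofPred_eq, hS]
      exact hnextc (S n) y hy d0 hd0 hmin
    have hDn : ∀ d ∈ D, ∀ x, f x = y → ∃ d', d ≤ d' ∧ x ∈ V (S (n + 1)) d' := by
      intro d hd
      exact ((hmem (n + 1) y d).1 (hn d hd)).2
    have hVD : ∀ x, f x = y → ∀ d, x ∈ V (S (n + 1)) d → d ∈ D := by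
      intro x hx d hxd
      have h1 : f x ∈ (S (n + 1)).1 d := hV2 _ d hxd
      rw [hx] at h1
      exact h1
    have hgood : lcl D ∈ Good := by
      rw [hGood]
      refine ⟨?_, ?_⟩
      · rintro a ⟨d, hd, had⟩ b hba
        exact ⟨d, hd, hba.trans had⟩
      · have hcC := hV4 (S (n + 1)) x
        have hne : {d | x ∈ V (S (n + 1)) d}.Nonempty := hV3 _ x (hx ▸ hy)
        obtain ⟨q', hq'⟩ := hcC.exists_eq_range hne
        refine ⟨q', fun k => ?_, ?_⟩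
        · have : q' k ∈ {d | x ∈ V (S (n + 1)) d} := by rw [hq']; exact mem_range_self k
          exact ⟨q' k, hVD x hx _ this, le_rfl⟩
        · rintro a ⟨d, hd, had⟩
          obtain ⟨d', h1, h2⟩ := hDn d hd x hx
          have : d' ∈ range q' := by rw [← hq']; exact h2
          obtain ⟨k, rfl⟩ := this
          exact ⟨k, had.trans h1⟩
    have hyZ : y ∈ Z (n + 1) (lcl D) := by
      rw [hZmem]
      intro k x' hx'
      obtain ⟨d, hd, hqd⟩ := (hq _ hgood).1 k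
      obtain ⟨d', h1, h2⟩ := hDn d hd x' hx'
      exact ⟨d', ⟨⟨d', hVD x' hx' d' h2, le_rfl⟩, hqd.trans h1⟩, h2⟩
    obtain ⟨k, hk⟩ := (hq _ hgood).2 d0 ⟨d0, hd0D, le_rfl⟩
    refine mem_iUnion.2 ⟨q (lcl D) k, mem_iUnion.2 ⟨n + 1, mem_iUnion₂.2 ⟨lcl D, ⟨hgood, k, rfl⟩,
      hZt3 _ _ y hy hyZ, hBm hk hd0⟩⟩⟩
  · intro y hy
    obtain ⟨x, hx⟩ := hf.surjective y
    have hsub : {d | y ∈ ⋃ n, ⋃ s ∈ {s | s ∈ Good ∧ ∃ k, q s k = d}, Zt n s ∩ B d} ⊆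
        ⋃ n : ℕ, ⋃ s ∈ {s | s ∈ Good ∧ y ∈ Z n s}, range (q s) := by
      intro d hd
      rw [Set.mem_ofPred_eq] at hd
      simp only [mem_iUnion] at hd
      obtain ⟨n, s, ⟨hs, k, hk⟩, h⟩ := hd
      exact mem_iUnion.2 ⟨n, mem_iUnion₂.2 ⟨s, ⟨hs, hZt2 n s y hy h.1⟩, k, hk⟩⟩
    refine Countable.mono hsub (countable_iUnion fun n => Countable.biUnion ?_ fun s _ =>
      countable_range _)
    refine lcl_countable (hV4 (S n) x) _ ?_
    rintro s ⟨hs, hyZ⟩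
    refine ⟨((hGood s).1 hs).1, fun a ha => ?_⟩
    obtain ⟨k, hk⟩ := (hq s hs).2 a ha
    obtain ⟨d, ⟨h1, h2⟩, h3⟩ := (hZmem n s y).1 hyZ k x hx
    exact ⟨d, h3, h1, hk.trans h2⟩

end Pool.Agent.H865.CM
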