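import Pool.Agent.H865.CM.Defs

set_option autoImplicit false

namespace Pool.Agent.H865.CM

open Set Topology Cardinal

universe u

open Pool.Agent.Results.MP_e848aa_gt.TfaeFreeSubset (FreeSubset dcc ClosedUnder clN cl subset_cl
  cl_closed cl_countable cl_open)

theorem t5_not_freeSubset {Λ : Type u} (h : ¬ FreeSubsets Λ) : ¬ FreeSubset Λ := by
  intro hF
  apply h
  intro C hC
  obtain ⟨a, ha, hfree⟩ := hF C hC
  refine ⟨range a, infinite_range_of_injective ha, ?_⟩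
  rintro s hs _ ⟨k, rfl⟩ hk
  apply hfree k s
  intro x hx
  obtain ⟨j, rfl⟩ := hs hx
  refine ⟨j, ?_, rfl⟩
  rintro rfl
  exact hk hx

/-- T5 -/
theorem levels {X Y : Type u} [TopologicalSpace X] [TopologicalSpace Y] {f : X → Y}
    (hf : ClosedMapping f) {Λ : Type u} (hΛ : ¬ FreeSubsets Λ) (c : Λ → Set Λ)
    (hc : ∀ l, (c l).Countable) (Z : Set Y) (V : ℕ → Λ → Set X) (hVo : ∀ n l, IsOpen (V n l))
    (hVc : ∀ n x, {l | x ∈ V n l}.Countable) (U : Λ → Set Y) (hU : ∀ l, IsOpen (U l))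
    (hcov : ∀ n x, f x ∈ Z → ∃ l, x ∈ V n l) (h0 : ∀ x, f x ∈ Z → ∀ l, x ∈ V 0 l → f x ∈ U l)
    (hstep : ∀ n x, f x ∈ Z → ∀ l, x ∈ V (n + 1) l → f x ∈ core f (⋃ l' ∈ c l, V n l')) :
    ∃ G : Λ → Set Y, (∀ l, IsOpen (G l)) ∧ (∀ l, G l ⊆ U l) ∧ Z ⊆ ⋃ l, G l ∧
      ∀ y, {l | y ∈ G l}.Countable := by
  classical
  have hs := hf.surjective
  have hcl := hf.isClosedMap
  -- closure operator
  obtain ⟨F0, hF0, hdcc⟩ := dcc (t5_not_freeSubset hΛ)
  let F : Finset Λ → Set Λ := fun G => F0 G ∪ ⋃ l ∈ G, c l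
  have hF : ∀ G, (F G).Countable := fun G => (hF0 G).union (G.countable_toSet.biUnion fun l _ => hc l)
  let S : X → Set Λ := fun x => {l | ∃ n, x ∈ V n l}
  have hSo : ∀ l, IsOpen {x | l ∈ S x} := by
    intro l
    have : {x | l ∈ S x} = ⋃ n, V n l := by
      ext x
      simp [S]
    rw [this]
    exact isOpen_iUnion fun n => hVo n l
  have hSc : ∀ x, (S x).Countable := by
    intro x
    have : S x = ⋃ n, {l | x ∈ V n l} := by
      ext l
      simp [S]
    rw [this]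
    exact countable_iUnion fun n => hVc n x
  let N : X → Set Λ := fun x => cl F (S x)
  have hNc : ∀ x, (N x).Countable := fun x => cl_countable F hF _ (hSc x)
  have hNcl : ∀ x, ClosedUnder F (N x) := fun x => cl_closed F _
  let O : Λ → Set X := fun l => {x | l ∈ N x}
  have hO : ∀ l, IsOpen (O l) := fun l => cl_open F S hSo l
  have hpar : ∀ l, ∀ l' ∈ c l, O l ⊆ O l' := by
    intro l l' hl' x hx
    have h1 : (({l} : Finset Λ) : Set Λ) ⊆ N x := by
      rw [Finset.coe_singleton, singleton_subset_iff]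
      exact hx
    exact hNcl x _ h1 (Or.inr (mem_iUnion₂.mpr ⟨l, Finset.mem_singleton_self _, hl'⟩))
  have hSO : ∀ n l, V n l ⊆ O l := fun n l x hx => subset_cl F (S x) ⟨n, hx⟩
  -- finite subsets of fibres
  have key : ∀ y ∈ Z, ∀ n l, (V n l ∩ f ⁻¹' {y}).Nonempty → ∀ T : Finset X,
      (T : Set X) ⊆ f ⁻¹' {y} → T.card ≤ n →
      ∃ l0, (V 0 l0 ∩ f ⁻¹' {y}).Nonempty ∧ O l ⊆ O l0 ∧ (T : Set X) ⊆ O l0 := by
    intro y hy n
    induction n with
    | zero =>
      intro l hl T hT hcard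
      refine ⟨l, hl, subset_rfl, ?_⟩
      rw [Nat.le_zero, Finset.card_eq_zero] at hcard
      rw [hcard]
      simp
    | succ n ih =>
      rintro l ⟨x, hxl, hxy⟩ T hT hcard
      obtain ⟨s, hsy, hsT⟩ : ∃ s, f s = y ∧ (T.erase s).card ≤ n := by
        rcases T.eq_empty_or_nonempty with h | ⟨s, hsT⟩
        · obtain ⟨s, rfl⟩ := hs y
          exact ⟨s, rfl, by rw [h]; simp⟩
        · exact ⟨s, hT hsT, by rw [Finset.card_erase_of_mem hsT]; omega⟩
      have hxy' : f x = y := hxy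
      have h4 : f ⁻¹' {y} ⊆ ⋃ l' ∈ c l, V n l' := by
        have := hstep n x (by rw [hxy']; exact hy) l hxl
        rw [hxy'] at this
        exact this
      obtain ⟨l', hl', hsl'⟩ := mem_iUnion₂.mp (h4 (show s ∈ f ⁻¹' {y} from hsy))
      obtain ⟨l0, hl0, h5, h6⟩ := ih l' ⟨s, hsl', hsy⟩ (T.erase s)
        (fun t ht => hT (Finset.mem_of_mem_erase ht)) hsT
      refine ⟨l0, hl0, (hpar l l' hl').trans h5, ?_⟩
      intro t ht
      by_cases hts : t = s
      · rw [hts]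
        exact h5 (hSO n l' hsl')
      · exact h6 (Finset.mem_erase.mpr ⟨hts, ht⟩)
  have key' : ∀ y ∈ Z, ∀ T : Finset X, (T : Set X) ⊆ f ⁻¹' {y} →
      ∃ l0, (V 0 l0 ∩ f ⁻¹' {y}).Nonempty ∧ (T : Set X) ⊆ O l0 := by
    intro y hy T hT
    obtain ⟨x, hx⟩ := hs y
    obtain ⟨l, hl⟩ := hcov T.card x (by rw [hx]; exact hy)
    obtain ⟨l0, h1, -, h2⟩ := key y hy T.card l ⟨x, hl, hx⟩ T hT le_rfl
    exact ⟨l0, h1, h2⟩
  -- a common label
  have main : ∀ y ∈ Z, ∃ l, (V 0 l ∩ f ⁻¹' {y}).Nonempty ∧ f ⁻¹' {y} ⊆ O l := by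
    intro y hy
    have h1 : ∃ T : Finset X, (T : Set X) ⊆ f ⁻¹' {y} ∧
        ∀ x' ∈ f ⁻¹' {y}, (⋂ x ∈ T, N x) ⊆ N x' := by
      by_contra hcon
      push Not at hcon
      let St := {T : Finset X // (T : Set X) ⊆ f ⁻¹' {y}}
      have h2 : ∀ T : St, ∃ x' ∈ f ⁻¹' {y}, ¬ (⋂ x ∈ T.1, N x) ⊆ N x' := fun T => hcon T.1 T.2
      choose g hg hg' using h2
      let T : ℕ → St := fun n => Nat.rec ⟨∅, by simp⟩ (fun _ T => ⟨insert (g T) T.1, by
        rw [Finset.coe_insert, insert_subset_iff]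
        exact ⟨hg T, T.2⟩⟩) n
      have hT : ∀ n, (T (n + 1)).1 = insert (g (T n)) (T n).1 := fun n => rfl
      obtain ⟨k, hk⟩ := hdcc (fun n => ⋂ x ∈ (T n).1, N x) (fun n G hG => by
        refine subset_iInter₂ fun x hx => ?_
        exact subset_trans subset_union_left (hNcl x G (hG.trans (biInter_subset_of_mem hx))))
        (fun n => by
          refine subset_iInter₂ fun x hx => ?_
          have h3 : x ∈ (T (n + 1)).1 := by
            rw [hT]
            exact Finset.mem_insert_of_mem hx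
          exact iInter₂_subset x h3)
      apply hg' (T k)
      have h3 : g (T k) ∈ (T (k + 1)).1 := by
        rw [hT]
        exact Finset.mem_insert_self _ _
      exact hk.symm.subset.trans (iInter₂_subset (g (T k)) h3)
    obtain ⟨T, hT, h2⟩ := h1
    obtain ⟨l0, h3, h4⟩ := key' y hy T hT
    refine ⟨l0, h3, fun x' hx' => ?_⟩
    exact h2 x' hx' (mem_iInter₂.mpr fun x hx => h4 hx)
  refine ⟨fun l => core f (O l) ∩ U l, fun l => (isOpen_core hcl (hO l)).inter (hU l),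
    fun l => inter_subset_right, fun y hy => ?_, fun y => ?_⟩
  · obtain ⟨l, ⟨x, hx, hxy⟩, h⟩ := main y hy
    refine mem_iUnion.mpr ⟨l, h, ?_⟩
    have hxy' : f x = y := hxy
    have := h0 x (by rw [hxy']; exact hy) l hx
    rwa [hxy'] at this
  · obtain ⟨x, hx⟩ := hs y
    refine (hNc x).mono ?_
    rintro l ⟨hl, -⟩
    exact hl hx

end Pool.Agent.H865.CM
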