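import Pool.Agent.H865.CM.T1
import Pool.Agent.H865.CM.T2
import Pool.Agent.H865.CM.T3
import Pool.Agent.H865.CM.Reduce
import Pool.Agent.H865.CM.T5
import Pool.Agent.H865.CM.Cofinal

set_option autoImplicit false

namespace Pool.Agent.H865.CM

open Set Topology Cardinal

universe u

variable {X Y : Type u} [TopologicalSpace X] [TopologicalSpace Y] {f : X → Y}

/-- If every family of open sets covering `Z` can be shrunk to a point-countable family on `X` such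
that the fibres over `Z` are covered by countably many members, then `Z` is well covered. -/
theorem extG_of_small (hf : ClosedMapping f) {Λ : Type u} (hΛ : ¬ FreeSubsets Λ) (c : Λ → Set Λ)
    (hc : ∀ l, (c l).Countable) (Z : Set Y)
    (hS : ∀ A : Λ → Set Y, (∀ l, IsOpen (A l)) → Z ⊆ ⋃ l, A l → ∃ V : Λ → Set X,
      (∀ l, IsOpen (V l)) ∧ (∀ x, {l | x ∈ V l}.Countable) ∧ (∀ l, V l ⊆ f ⁻¹' A l) ∧
      ∀ y ∈ Z, ∃ l, y ∈ core f (⋃ l' ∈ c l, V l')) : ExtG Λ Z := by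
  intro U hU hcov
  let P := {V : Λ → Set X // (∀ l, IsOpen (V l)) ∧ (∀ x, {l | x ∈ V l}.Countable) ∧
    ∀ y ∈ Z, ∃ l, y ∈ core f (⋃ l' ∈ c l, V l')}
  obtain ⟨V0, a1, a2, a3, a4⟩ := hS U hU hcov
  have step : ∀ V : P, ∃ V' : P, ∀ l, V'.1 l ⊆ f ⁻¹' core f (⋃ l' ∈ c l, V.1 l') := by
    rintro ⟨V, b1, b2, b3⟩
    obtain ⟨V', c1, c2, c3, c4⟩ := hS (fun l => core f (⋃ l' ∈ c l, V l'))
      (fun l => isOpen_core hf.isClosedMap (isOpen_biUnion fun l' _ => b1 l'))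
      (fun y hy => mem_iUnion.2 (b3 y hy))
    exact ⟨⟨V', c1, c2, c4⟩, c3⟩
  choose nx hnx using step
  let L : ℕ → P := fun n => Nat.rec ⟨V0, a1, a2, a4⟩ (fun _ V => nx V) n
  have hL : ∀ n, L (n + 1) = nx (L n) := fun n => rfl
  refine levels hf hΛ c hc Z (fun n => (L n).1) (fun n => (L n).2.1) (fun n => (L n).2.2.1) U hU
    ?_ ?_ ?_
  · intro n x hx
    obtain ⟨l, hl⟩ := (L n).2.2.2 _ hx
    obtain ⟨l', -, hl'⟩ := mem_iUnion₂.1 (hl (rfl : f x = f x))
    exact ⟨l', hl'⟩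
  · intro x _ l hx
    exact a3 l hx
  · intro n x _ l hx
    exact hnx (L n) l hx

/-- A closed set which is well covered in itself is well covered in the space. -/
theorem extG_of_intG (hf : ClosedMapping f) (hX : Metalindelof X) {Λ : Type u}
    (hΛ : ¬ FreeSubsets Λ) (c : Λ → Set Λ) (hc : ∀ l, (c l).Countable)
    (hcc : ∀ S : Set Λ, S.Countable → ∃ l, S ⊆ c l) {E : Set Y} (hE : IsClosed E)
    (hI : IntG Λ E) : ExtG Λ E := by
  refine extG_of_small hf hΛ c hc E fun A hA hcov => ?_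
  obtain ⟨G, g1, g2, g3, g4⟩ := hI A hA hcov
  obtain ⟨V, v1, v2, v3, v4⟩ := Pool.Agent.Results.MP_e848aa_gt.PerfectImages.shrink hX
    (U := fun o : Option Λ => Option.casesOn o (f ⁻¹' E)ᶜ fun l => f ⁻¹' G l)
    (by
      rintro (_ | l)
      · exact (hE.preimage hf.continuous).isOpen_compl
      · exact (g1 l).preimage hf.continuous)
    (by
      refine eq_univ_of_forall fun x => ?_
      by_cases hx : f x ∈ E
      · obtain ⟨l, hl⟩ := mem_iUnion.1 (g3 hx)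
        exact mem_iUnion.2 ⟨some l, hl⟩
      · exact mem_iUnion.2 ⟨none, hx⟩)
  refine ⟨fun l => V (some l), fun l => v1 _, fun x => ?_, fun l => ?_, fun y hy => ?_⟩
  · have := (v4 x).preimage (Option.some_injective Λ)
    exact this
  · exact (v2 (some l)).trans (preimage_mono (g2 l))
  · obtain ⟨l0, hl0⟩ := hcc _ (g4 y hy)
    refine ⟨l0, fun x hx => ?_⟩
    have hx' : f x = y := hx
    obtain ⟨o, ho⟩ := mem_iUnion.1 (v3 ▸ mem_univ x : x ∈ ⋃ i, V i)
    rcases o with _ | l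
    · exact absurd (hx' ▸ hy : f x ∈ E) (v2 none ho)
    · have h1 : f x ∈ G l := v2 (some l) ho
      exact mem_iUnion₂.2 ⟨l, hl0 (show y ∈ G l from hx' ▸ h1), ho⟩

theorem isClosed_Large (hf : ClosedMapping f) {Λ : Type u} {V : Λ → Set X}
    (hV : ∀ l, IsOpen (V l)) (m : ℕ) : IsClosed (Large f V m) := by
  have : Large f V m = (⋃ M ∈ {M : Set Λ | #M < ℵ_ m}, core f (⋃ l ∈ M, V l))ᶜ := by
    ext y
    simp only [Large, mem_ofPred_eq, mem_compl_iff, mem_iUnion, not_exists, exists_prop, not_and]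
    exact Iff.rfl
  rw [this, isClosed_compl_iff]
  exact isOpen_biUnion fun M _ => isOpen_core hf.isClosedMap (isOpen_biUnion fun l _ => hV l)

/-- The stratum of the points of covering number `ℵ_ m` is a P-space. -/
theorem isP_stratum (hf : ClosedMapping f) {Λ : Type u} {V : Λ → Set X} (hV : ∀ l, IsOpen (V l))
    (hVc : ∀ x, {l | x ∈ V l}.Countable) (m : ℕ) {E : Set Y} (h1 : E ⊆ Large f V m)
    (h2 : ∀ y ∈ E, y ∉ Large f V (m + 1)) : IsP E := by
  intro y hy G hG hyG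
  have h3 := h2 y hy
  simp only [Large, mem_ofPred_eq, not_forall, not_not] at h3
  obtain ⟨M, hM, hyM⟩ := h3
  have hM' : #M ≤ ℵ_ (m : ℕ) := by
    have h4 : ℵ_ ((m + 1 : ℕ) : Ordinal) = Order.succ (ℵ_ (m : Ordinal)) := by
      rw [succ_aleph]; congr 1
    rw [h4, Order.lt_succ_iff] at hM
    exact hM
  obtain ⟨H, k1, k2, k3⟩ := pnbhd hf.continuous hf.isClosedMap m V hV hVc y M hM' hyM G hG hyG
  refine ⟨H, k1, k2, fun w hw hwE k => ?_⟩
  by_contra hk
  obtain ⟨M', hM', hw'⟩ := k3 w hw ⟨k, hk⟩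
  exact h1 hwE M' hM' hw'

theorem extG_large (hf : ClosedMapping f) (hX : Metalindelof X) {Λ : Type u} (m : ℕ)
    (hm : #Λ = ℵ_ m) (hΛ : ¬ FreeSubsets Λ) (c : Λ → Set Λ) (hc : ∀ l, (c l).Countable)
    (hcc : ∀ S : Set Λ, S.Countable → ∃ l, S ⊆ c l) {V : Λ → Set X} (hV : ∀ l, IsOpen (V l))
    (hVc : ∀ x, {l | x ∈ V l}.Countable) (hcov : ⋃ l, V l = Set.univ) :
    ExtG Λ (Large f V 1) := by
  have key : ∀ j : ℕ, ∀ E : Set Y, IsClosed E → E ⊆ Large f V 1 →
      (∀ y ∈ E, y ∉ Large f V (j + 1)) → ExtG Λ E := by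
    intro j
    induction j with
    | zero =>
      intro E _ h1 h2 U _ _
      have hE : E = ∅ := eq_empty_of_forall_notMem fun y hy => h2 y hy (h1 hy)
      refine ⟨fun _ => ∅, fun _ => isOpen_empty, fun _ => empty_subset _, ?_, fun y => ?_⟩
      · rw [hE]; exact empty_subset _
      · simp
    | succ j ih =>
      intro E hE h1 h2 U hU hcovU
      have hE1 : IsClosed (E ∩ Large f V (j + 1)) := hE.inter (isClosed_Large hf hV _)
      have hP : IsP (E ∩ Large f V (j + 1)) :=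
        isP_stratum hf hV hVc (j + 1) inter_subset_right fun y hy => h2 y hy.1
      have hM : Mono (E ∩ Large f V (j + 1)) := mono hf hX hE1 hP
      have hI : IntG Λ (E ∩ Large f V (j + 1)) := reduce hM m hm.le
      obtain ⟨K, k1, k2, k3, k4⟩ := extG_of_intG hf hX hΛ c hc hcc hE1 hI U hU
        (inter_subset_left.trans hcovU)
      obtain ⟨G, g1, g2, g3, g4⟩ := ih (E \ ⋃ l, K l) (hE.sdiff (isOpen_iUnion k1))
        (sdiff_subset.trans h1) (fun y hy hyL => hy.2 (k3 ⟨hy.1, hyL⟩)) U hU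
        (sdiff_subset.trans hcovU)
      refine ⟨fun l => K l ∪ G l, fun l => (k1 l).union (g1 l), fun l => union_subset (k2 l) (g2 l),
        fun y hy => ?_, fun y => ?_⟩
      · by_cases hyK : y ∈ ⋃ l, K l
        · obtain ⟨l, hl⟩ := mem_iUnion.1 hyK
          exact mem_iUnion.2 ⟨l, Or.inl hl⟩
        · obtain ⟨l, hl⟩ := mem_iUnion.1 (g3 ⟨hy, hyK⟩)
          exact mem_iUnion.2 ⟨l, Or.inr hl⟩
      · refine ((k4 y).union (g4 y)).mono ?_
        rintro l (hl | hl)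
        · exact Or.inl hl
        · exact Or.inr hl
  refine key m _ (isClosed_Large hf hV 1) subset_rfl fun y _ hy => ?_
  refine hy univ ?_ ?_
  · rw [mk_univ, hm]
    exact aleph_lt_aleph.2 (by exact_mod_cast Nat.lt_succ_self m)
  · rw [biUnion_univ, hcov]
    exact subset_univ _

/-- Closed images of metalindelöf spaces: families indexed by a set of size `ℵ_ m`. -/
theorem extG_univ (hf : ClosedMapping f) (hX : Metalindelof X) {Λ : Type u} (m : ℕ)
    (hm : #Λ = ℵ_ m) : ExtG Λ (univ : Set Y) := by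
  have hΛ : ¬ FreeSubsets Λ := Pool.Agent.Results.MP_e848aa_gt.PerfectImages.not_freeSubsets_of_lt
    (by rw [hm]; exact aleph_lt_aleph.2 (Ordinal.natCast_lt_omega0 m))
  obtain ⟨c, hc, hcc⟩ := cofinal m Λ hm
  refine extG_of_small hf hΛ c hc univ fun A hA hcov => ?_
  obtain ⟨V, v1, v2, v3, v4⟩ := Pool.Agent.Results.MP_e848aa_gt.PerfectImages.shrink hX
    (U := fun l => f ⁻¹' A l) (fun l => (hA l).preimage hf.continuous)
    (by
      refine eq_univ_of_forall fun x => ?_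
      obtain ⟨l, hl⟩ := mem_iUnion.1 (hcov (mem_univ (f x)))
      exact mem_iUnion.2 ⟨l, hl⟩)
  obtain ⟨K, k1, k2, k3, k4⟩ := extG_large hf hX m hm hΛ c hc hcc v1 v4 v3 A hA
    ((subset_univ _).trans hcov)
  refine ⟨fun l => V l ∪ f ⁻¹' K l, fun l => (v1 l).union ((k1 l).preimage hf.continuous),
    fun x => ?_, fun l => union_subset (v2 l) (preimage_mono (k2 l)), fun y _ => ?_⟩
  · refine ((v4 x).union (k4 (f x))).mono ?_
    rintro l (hl | hl)
    · exact Or.inl hl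
    · exact Or.inr hl
  · by_cases hy : y ∈ Large f V 1
    · obtain ⟨l, hl⟩ := mem_iUnion.1 (k3 hy)
      obtain ⟨l0, hl0⟩ := hcc {l} (countable_singleton l)
      refine ⟨l0, fun x hx => mem_iUnion₂.2 ⟨l, hl0 rfl, Or.inr ?_⟩⟩
      have hx' : f x = y := hx
      show f x ∈ K l
      rw [hx']
      exact hl
    · simp only [Large, mem_ofPred_eq, not_forall, not_not] at hy
      obtain ⟨M, hM, hyM⟩ := hy
      have hM' : M.Countable := by
        rw [← le_aleph0_iff_set_countable]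
        have h4 : ℵ_ ((1 : ℕ) : Ordinal) = Order.succ ℵ₀ := by
          rw [← aleph_zero, succ_aleph]; congr 1
        rw [h4, Order.lt_succ_iff] at hM
        exact hM
      obtain ⟨l0, hl0⟩ := hcc M hM'
      refine ⟨l0, fun x hx => ?_⟩
      obtain ⟨l, hl, hxl⟩ := mem_iUnion₂.1 (hyM hx)
      exact mem_iUnion₂.2 ⟨l, hl0 hl, Or.inl hxl⟩

/-- Closed images of metalindelöf spaces: open covers of size less than `ℵ_ω`. -/
theorem closed_image (hf : ClosedMapping f) (hX : Metalindelof X) (𝒰 : Set (Set Y))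
    (hU : ∀ U ∈ 𝒰, IsOpen U) (hcov : ⋃₀ 𝒰 = Set.univ) (hcard : #𝒰 < ℵ_ Ordinal.omega0) :
    HasPointCountableOpenRefinement 𝒰 := by
  classical
  obtain ⟨m, hm⟩ : ∃ m : ℕ, #𝒰 ≤ ℵ_ m := by
    by_contra hcon
    push Not at hcon
    refine absurd hcard (not_lt.2 ?_)
    rw [aleph_limit Ordinal.isSuccLimit_omega0]
    refine ciSup_le' fun i => ?_
    obtain ⟨n, hn⟩ := Ordinal.lt_omega0.1 i.2
    rw [hn]
    exact (hcon n).le
  let Λ : Type u := (ℵ_ (m : Ordinal.{u})).ord.ToType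
  have hΛ : #Λ = ℵ_ m := by simp [Λ]
  rw [← hΛ] at hm
  obtain ⟨e⟩ := hm
  let U : Λ → Set Y := fun l => ⋃₀ {A | ∃ h : A ∈ 𝒰, e ⟨A, h⟩ = l}
  have hUe : ∀ A (h : A ∈ 𝒰), U (e ⟨A, h⟩) = A := by
    intro A h
    refine subset_antisymm (sUnion_subset ?_) (subset_sUnion_of_mem ⟨h, rfl⟩)
    rintro B ⟨hB, hBe⟩
    have := e.injective hBe
    exact (congrArg Subtype.val this).subset
  obtain ⟨G, g1, g2, g3, g4⟩ := extG_univ hf hX m hΛ U
    (fun l => isOpen_sUnion fun A hA => hU A hA.1) (fun y _ => by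
      obtain ⟨A, hA, hy⟩ := mem_sUnion.1 (hcov ▸ mem_univ y : y ∈ ⋃₀ 𝒰)
      exact mem_iUnion.2 ⟨e ⟨A, hA⟩, by rw [hUe]; exact hy⟩)
  refine ⟨{A | ∃ l, (G l).Nonempty ∧ A = G l}, ?_, ?_, ?_, ?_⟩
  · rintro _ ⟨l, -, rfl⟩
    exact g1 l
  · refine eq_univ_of_forall fun y => ?_
    obtain ⟨l, hl⟩ := mem_iUnion.1 (g3 (mem_univ y))
    exact ⟨G l, ⟨l, ⟨y, hl⟩, rfl⟩, hl⟩
  · intro y
    refine ((g4 y).image G).mono ?_
    rintro _ ⟨⟨l, -, rfl⟩, hy⟩
    exact ⟨l, hy, rfl⟩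
  · rintro _ ⟨l, ⟨y, hy⟩, rfl⟩
    obtain ⟨A, ⟨hA, rfl⟩, -⟩ := mem_sUnion.1 (g2 l hy)
    exact ⟨A, hA, (g2 _).trans (hUe A hA).subset⟩

end Pool.Agent.H865.CM
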