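import Pool.Agent.H865.CM.Defs

set_option autoImplicit false

namespace Pool.Agent.H865.CM.Stubs

open Set Topology Cardinal

universe u

/-- T1 -/
theorem comb (m : ℕ) : ∀ (O : Type u), #O ≤ ℵ_ m → ∃ p : Pay O (m + 1), ∀ (ι : Type u)
    (C : ι → Set O) (n : ℕ), (∀ i, (C i).Countable) → Win C n (m + 1) p →
    ∃ M : Set O, #M < ℵ_ m ∧ ∀ i, (C i ∩ M).Nonempty := by
  sorry

/-- T2 -/
theorem pnbhd {X Y : Type u} [TopologicalSpace X] [TopologicalSpace Y] {f : X → Y}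
    (hf : Continuous f) (hcl : IsClosedMap f) (m : ℕ) {Λ : Type u} (V : Λ → Set X)
    (hV : ∀ l, IsOpen (V l)) (hVc : ∀ x, {l | x ∈ V l}.Countable) (y : Y) (M : Set Λ)
    (hM : #M ≤ ℵ_ m) (hy : f ⁻¹' {y} ⊆ ⋃ l ∈ M, V l) (G : ℕ → Set Y) (hG : ∀ k, IsOpen (G k))
    (hyG : ∀ k, y ∈ G k) :
    ∃ H : Set Y, IsOpen H ∧ y ∈ H ∧ ∀ w ∈ H, (∃ k, w ∉ G k) →
      ∃ M' : Set Λ, #M' < ℵ_ m ∧ f ⁻¹' {w} ⊆ ⋃ l ∈ M', V l := by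
  sorry

/-- T3 -/
theorem mono {X Y : Type u} [TopologicalSpace X] [TopologicalSpace Y] {f : X → Y}
    (hf : ClosedMapping f) (hX : Metalindelof X) {E : Set Y} (hE : IsClosed E) (hP : IsP E) :
    Mono E := by
  sorry

/-- T4 -/
theorem reduce {Y : Type u} [TopologicalSpace Y] {E : Set Y} (hE : Mono E) (m : ℕ) {Λ : Type u}
    (hΛ : #Λ ≤ ℵ_ m) : IntG Λ E := by
  sorry

/-- T5 -/
theorem levels {X Y : Type u} [TopologicalSpace X] [TopologicalSpace Y] {f : X → Y}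
    (hf : ClosedMapping f) {Λ : Type u} (hΛ : ¬ FreeSubsets Λ) (c : Λ → Set Λ)
    (hc : ∀ l, (c l).Countable) (Z : Set Y) (V : ℕ → Λ → Set X) (hVo : ∀ n l, IsOpen (V n l))
    (hVc : ∀ n x, {l | x ∈ V n l}.Countable) (U : Λ → Set Y) (hU : ∀ l, IsOpen (U l))
    (hcov : ∀ n x, f x ∈ Z → ∃ l, x ∈ V n l) (h0 : ∀ x, f x ∈ Z → ∀ l, x ∈ V 0 l → f x ∈ U l)
    (hstep : ∀ n x, f x ∈ Z → ∀ l, x ∈ V (n + 1) l → f x ∈ core f (⋃ l' ∈ c l, V n l')) :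
    ∃ G : Λ → Set Y, (∀ l, IsOpen (G l)) ∧ (∀ l, G l ⊆ U l) ∧ Z ⊆ ⋃ l, G l ∧
      ∀ y, {l | y ∈ G l}.Countable := by
  sorry

/-- T6 -/
theorem cofinal (m : ℕ) : ∀ (Λ : Type u), #Λ = ℵ_ m → ∃ c : Λ → Set Λ, (∀ l, (c l).Countable) ∧
    ∀ S : Set Λ, S.Countable → ∃ l, S ⊆ c l := by
  sorry

end Pool.Agent.H865.CM.Stubs
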